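import Pool.Agent.Helper74.HG.Goals

/-!
# HG-STE: the step `c a b + w l ~ a l - c w b + w l`
-/

namespace Pool.Agent.Helper61.HG.STE

open MvPolynomial Pool.Agent.Helper74.HG

variable {σ : Type}

/-- the new variables -/
noncomputable def fw (a b : MvPolynomial σ ℤ) (c : ℤ) :
    MvPolynomial (σ ⊕ (Fin 1 ⊕ Fin 1)) ℤ →ₐ[ℤ] MvPolynomial (Option (Option σ)) ℤ :=
  aeval (Sum.elim (fun i => X (some (some i)))
    (Sum.elim (fun _ => X none + rename (fun i => some (some i)) a)
      (fun _ => X (some none) - C c * rename (fun i => some (some i)) b)))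

/-- the values of the inverse -/
noncomputable def bv (a b : MvPolynomial σ ℤ) (c : ℤ) :
    Option (Option σ) → MvPolynomial (σ ⊕ (Fin 1 ⊕ Fin 1)) ℤ
  | none => X (Sum.inr (Sum.inl 0)) - rename Sum.inl a
  | some none => X (Sum.inr (Sum.inr 0)) + C c * rename Sum.inl b
  | some (some i) => X (Sum.inl i)

noncomputable def bw (a b : MvPolynomial σ ℤ) (c : ℤ) :
    MvPolynomial (Option (Option σ)) ℤ →ₐ[ℤ] MvPolynomial (σ ⊕ (Fin 1 ⊕ Fin 1)) ℤ :=
  aeval (bv a b c)

theorem fw_ren (a b : MvPolynomial σ ℤ) (c : ℤ) (p : MvPolynomial σ ℤ) :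
    fw a b c (rename Sum.inl p) = rename (fun i => some (some i)) p := by
  have h : (fw a b c).comp (rename Sum.inl) = rename (fun i => some (some i)) := by
    refine MvPolynomial.algHom_ext ?_
    intro i
    simp [fw]
  exact congrArg (fun q : MvPolynomial σ ℤ →ₐ[ℤ] MvPolynomial (Option (Option σ)) ℤ => q p) h

theorem bw_ren (a b : MvPolynomial σ ℤ) (c : ℤ) (p : MvPolynomial σ ℤ) :
    bw a b c (rename (fun i => some (some i)) p) = rename Sum.inl p := by
  have h : (bw a b c).comp (rename (fun i => some (some i))) =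
      (rename Sum.inl : MvPolynomial σ ℤ →ₐ[ℤ] MvPolynomial (σ ⊕ (Fin 1 ⊕ Fin 1)) ℤ) := by
    refine MvPolynomial.algHom_ext ?_
    intro i
    simp [bw, bv]
  exact congrArg (fun q : MvPolynomial σ ℤ →ₐ[ℤ] MvPolynomial (σ ⊕ (Fin 1 ⊕ Fin 1)) ℤ => q p) h

theorem fw_inl (a b : MvPolynomial σ ℤ) (c : ℤ) (i : σ) :
    fw a b c (X (Sum.inl i)) = X (some (some i)) := by
  simp [fw]

theorem fw_w (a b : MvPolynomial σ ℤ) (c : ℤ) (j : Fin 1) :
    fw a b c (X (Sum.inr (Sum.inl j))) = X none + rename (fun i => some (some i)) a := by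
  simp [fw]

theorem fw_l (a b : MvPolynomial σ ℤ) (c : ℤ) (j : Fin 1) :
    fw a b c (X (Sum.inr (Sum.inr j))) =
      X (some none) - C c * rename (fun i => some (some i)) b := by
  simp [fw]

theorem fw_C (a b : MvPolynomial σ ℤ) (c d : ℤ) : fw a b c (C d) = C d := by
  simp [fw]

theorem bw_C (a b : MvPolynomial σ ℤ) (c d : ℤ) : bw a b c (C d) = C d := by
  simp [bw]

theorem bw_X (a b : MvPolynomial σ ℤ) (c : ℤ) (o : Option (Option σ)) :
    bw a b c (X o) = bv a b c o := by
  simp [bw]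

/-- the isomorphism -/
noncomputable def iso (a b : MvPolynomial σ ℤ) (c : ℤ) :
    MvPolynomial (σ ⊕ (Fin 1 ⊕ Fin 1)) ℤ ≃ₐ[ℤ] MvPolynomial (Option (Option σ)) ℤ :=
  AlgEquiv.ofAlgHom (fw a b c) (bw a b c)
    (by
      refine MvPolynomial.algHom_ext ?_
      intro o
      rw [AlgHom.comp_apply, bw_X]
      rcases o with _ | _ | i
      · simp only [bv, map_sub, fw_w, fw_ren, AlgHom.id_apply]
        ring
      · simp only [bv, map_add, map_mul, fw_l, fw_ren, fw_C, AlgHom.id_apply]
        ring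
      · simp only [bv, fw_inl, AlgHom.id_apply])
    (by
      refine MvPolynomial.algHom_ext ?_
      intro o
      rw [AlgHom.comp_apply]
      rcases o with i | j | j
      · rw [fw_inl, bw_X]
        rfl
      · rw [fw_w, map_add, bw_X, bw_ren]
        have : j = 0 := Subsingleton.elim _ _
        subst this
        simp only [bv, AlgHom.id_apply]
        ring
      · rw [fw_l, map_sub, map_mul, bw_X, bw_ren, bw_C]
        have : j = 0 := Subsingleton.elim _ _
        subst this
        simp only [bv, AlgHom.id_apply]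
        ring)

theorem iso_apply (a b : MvPolynomial σ ℤ) (c : ℤ) (p : MvPolynomial (σ ⊕ (Fin 1 ⊕ Fin 1)) ℤ) :
    iso a b c p = fw a b c p := rfl

theorem t : STE := by
  intro σ f₀ a b c ha hb
  refine ⟨1, iso a b c, ?_, ?_⟩
  · rintro (i | j | j)
    · rw [iso_apply, fw_inl]
      simp
    · rw [iso_apply, fw_w]
      simp [ha, constantCoeff_rename]
    · rw [iso_apply, fw_l]
      simp [hb, constantCoeff_rename]
  · rw [iso_apply]
    simp only [stabS, Fin.sum_univ_one, map_add, map_mul, fw_w, fw_l, fw_ren, rename_C, fw_C]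
    ring

end Pool.Agent.Helper61.HG.STE
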