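import Pool.Agent.Helper74.HG.GoalsG

/-!
# PROJECT HG, packet PDV: the poles have absolute value greater than one

If `(X - T₀) U = A` with a polynomial `A` and coefficients of `U` tending to `0` and `‖T₀‖ ≤ 1`, then
`u_m = T₀ u_(m+1)` for large `m`, so `‖u_m‖ ≤ ‖u_(m+k)‖` tends to `0`: `U` is a polynomial.
-/

set_option autoImplicit false

namespace Pool.Agent.Helper61.HG.PDV

open Filter

theorem tend (S : PowerSeries ℂ) (hS : Tendsto (fun m => PowerSeries.coeff m S) atTop (nhds 0))
    (B : Polynomial ℂ) :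
    Tendsto (fun m => PowerSeries.coeff m ((B : PowerSeries ℂ) * S)) atTop (nhds 0) := by
  induction B using Polynomial.induction_on' with
  | add p q hp hq =>
    have h := hp.add hq
    rw [add_zero] at h
    refine h.congr fun m => ?_
    rw [Polynomial.coe_add, add_mul, map_add]
  | monomial n c =>
    have e : ∀ m, PowerSeries.coeff (m + n)
        (((Polynomial.monomial n c : Polynomial ℂ) : PowerSeries ℂ) * S) =
        c * PowerSeries.coeff m S := by
      intro m
      rw [← Polynomial.C_mul_X_pow_eq_monomial, Polynomial.coe_mul, Polynomial.coe_C,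
        Polynomial.coe_pow, Polynomial.coe_X, mul_assoc, PowerSeries.coeff_C_mul,
        PowerSeries.coeff_X_pow_mul]
    rw [← tendsto_add_atTop_iff_nat n]
    have h := hS.const_mul c
    rw [mul_zero] at h
    exact h.congr fun m => (e m).symm

theorem t : Pool.Agent.Helper74.HG.PDV := by
  intro S a ha hlim T₀ hP
  obtain ⟨A, B, hco, -, hBS, hdvd⟩ := hP
  rw [pow_one] at hdvd
  obtain ⟨B₁, rfl⟩ := hdvd
  by_contra hT
  rw [not_lt] at hT
  set U : PowerSeries ℂ := (B₁ : PowerSeries ℂ) * S with hU
  have hS : Tendsto (fun m => PowerSeries.coeff m S) atTop (nhds 0) := by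
    have h : Tendsto (fun m => ((a m : ℝ) : ℂ)) atTop (nhds ((0 : ℝ) : ℂ)) :=
      (Complex.continuous_ofReal.tendsto 0).comp hlim
    rw [Complex.ofReal_zero] at h
    exact h.congr fun m => (ha m).symm
  have hUt := tend S hS B₁
  have hUA : (PowerSeries.X - PowerSeries.C T₀) * U = (A : PowerSeries ℂ) := by
    rw [← hBS, hU, Polynomial.coe_mul, Polynomial.coe_sub, Polynomial.coe_X, Polynomial.coe_C,
      mul_assoc]
  have hstep : ∀ m, A.natDegree ≤ m →
      PowerSeries.coeff m U = T₀ * PowerSeries.coeff (m + 1) U := by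
    intro m hm
    have h := congrArg (PowerSeries.coeff (m + 1)) hUA
    rw [sub_mul, map_sub, PowerSeries.coeff_succ_X_mul, PowerSeries.coeff_C_mul,
      Polynomial.coeff_coe, Polynomial.coeff_eq_zero_of_natDegree_lt (by omega)] at h
    exact sub_eq_zero.1 h
  have hle : ∀ m, A.natDegree ≤ m → ∀ k,
      ‖PowerSeries.coeff m U‖ ≤ ‖PowerSeries.coeff (k + m) U‖ := by
    intro m hm k
    induction k with
    | zero => rw [zero_add]
    | succ k ih =>
      refine ih.trans ?_
      rw [hstep (k + m) (by omega), norm_mul, show k + 1 + m = k + m + 1 by omega]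
      exact mul_le_of_le_one_left (norm_nonneg _) hT
  have hz : ∀ m, A.natDegree ≤ m → PowerSeries.coeff m U = 0 := by
    intro m hm
    have h1 : Tendsto (fun k => ‖PowerSeries.coeff (k + m) U‖) atTop (nhds 0) := by
      have h2 := (tendsto_add_atTop_iff_nat m).2 hUt
      have h3 := h2.norm
      rwa [norm_zero] at h3
    have h4 : ‖PowerSeries.coeff m U‖ ≤ 0 := ge_of_tendsto' h1 (hle m hm)
    exact norm_le_zero_iff.1 h4
  have hpoly : ((PowerSeries.trunc A.natDegree U : Polynomial ℂ) : PowerSeries ℂ) = U := by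
    ext m
    rw [Polynomial.coeff_coe, PowerSeries.coeff_trunc]
    split_ifs with h
    · rfl
    · exact (hz m (by omega)).symm
  have hfin : (Polynomial.X - Polynomial.C T₀) * PowerSeries.trunc A.natDegree U = A := by
    apply Polynomial.coe_injective ℂ
    rw [Polynomial.coe_mul, Polynomial.coe_sub, Polynomial.coe_X, Polynomial.coe_C, hpoly]
    exact hUA
  have hu := hco.isUnit_of_dvd' (Dvd.intro _ hfin) (Dvd.intro _ rfl)
  exact Polynomial.not_isUnit_X_sub_C T₀ hu

end Pool.Agent.Helper61.HG.PDV
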